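import Mathlib

set_option autoImplicit false

namespace Pool.Agent.Results.MP_4e5b66_nt.NotRegular

/-- `[i, j)` is a maximal block of consecutive zeros in the binary expansion of `m`.
Bit positions are counted from the least significant bit (position `0`); the binary expansion
of `m` occupies the positions `0, …, m.size - 1`.  The block is nonempty, lies inside the
expansion, consists of zeros, and can be extended neither to the right nor to the left. -/
def IsMaxZeroBlock (m i j : ℕ) : Prop :=
  i < j ∧ j ≤ m.size ∧ (∀ t, i ≤ t → t < j → m.testBit t = false) ∧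
    (i = 0 ∨ m.testBit (i - 1) = true) ∧ (j = m.size ∨ m.testBit j = true)

open Classical in
/-- The Baum-Sweet sequence: `b 0 = 1` and, for `m ≥ 1`, `b m = 1` if every maximal block of
consecutive zeros in the binary expansion of `m` has even length, and `b m = 0` otherwise. -/
noncomputable def baumSweet (m : ℕ) : ℕ :=
  if m = 0 then 1 else if ∀ i j, IsMaxZeroBlock m i j → Even (j - i) then 1 else 0

/-- `zeroPos n` is the `n`-th element (counted from `n = 0`, in increasing order) of the set of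
zeros of the Baum-Sweet sequence. -/
noncomputable def zeroPos (n : ℕ) : ℕ := Nat.nth (fun m => baumSweet m = 0) n

/-- The `k`-kernel of an integer sequence. -/
def kKernel (k : ℕ) (a : ℕ → ℤ) : Set (ℕ → ℤ) :=
  {s | ∃ e r : ℕ, r < k ^ e ∧ s = fun n => a (k ^ e * n + r)}

/-- An integer sequence is `k`-regular if the `ℤ`-module spanned by its `k`-kernel is finitely
generated. -/
def IsKRegular (k : ℕ) (a : ℕ → ℤ) : Prop :=
  (Submodule.span ℤ (kKernel k a)).FG

/-! ### The predicate `good` -/

def Good (m : ℕ) : Prop :=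
  ∀ i j, i < j → (∀ t, i ≤ t → t < j → m.testBit t = false) →
    (i = 0 ∨ m.testBit (i - 1) = true) → m.testBit j = true → Even (j - i)

lemma testBit_top {m : ℕ} (hm : m ≠ 0) : m.testBit (m.size - 1) = true := by
  have hs : 0 < m.size := Nat.size_pos.mpr (Nat.pos_of_ne_zero hm)
  have h1 : 2 ^ (m.size - 1) ≤ m := Nat.lt_size.mp (by omega)
  have h2 : m < 2 ^ (m.size - 1 + 1) := by
    have := Nat.lt_size_self m
    have h3 : m.size - 1 + 1 = m.size := by omega
    rw [h3]; exact this
  rw [Nat.testBit_eq_decide_div_mod_eq]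
  have h4 : m / 2 ^ (m.size - 1) = 1 := by
    apply Nat.div_eq_of_lt_le
    · simpa using h1
    · rw [pow_succ] at h2; omega
  simp [h4]

lemma baumSweet_eq_zero_iff (m : ℕ) : baumSweet m = 0 ↔ ¬ Good m := by
  unfold baumSweet
  by_cases hm : m = 0
  · subst hm
    simp only [if_true]
    constructor
    · intro h; simp at h
    · intro h
      exfalso; apply h
      intro i j _ _ _ hj
      simp at hj
  · rw [if_neg hm]
    have key : (∀ i j, IsMaxZeroBlock m i j → Even (j - i)) ↔ Good m := by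
      constructor
      · intro h i j hij hz hl hr
        apply h i j
        refine ⟨hij, ?_, hz, hl, Or.inr hr⟩
        have := Nat.ge_two_pow_of_testBit hr
        exact le_of_lt (Nat.lt_size.mpr this)
      · rintro h i j ⟨hij, hjs, hz, hl, hr⟩
        rcases hr with hr | hr
        · exfalso
          have h1 := hz (m.size - 1) (by omega) (by omega)
          rw [testBit_top hm] at h1
          exact absurd h1 (by simp)
        · exact h i j hij hz hl hr
    rw [key]
    by_cases hg : Good m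
    · simp [hg]
    · simp [hg]

lemma tb2 (m t : ℕ) : (2 * m + 1).testBit (t + 1) = m.testBit t := by
  rw [Nat.testBit_succ]; congr 1; omega

lemma tb4 (m t : ℕ) : (4 * m).testBit (t + 2) = m.testBit t := by
  rw [Nat.testBit_succ, Nat.testBit_succ]; congr 1; omega

lemma good_odd (m : ℕ) : Good (2 * m + 1) ↔ Good m := by
  constructor
  · intro h i j hij hz hl hr
    have h1 := h (i + 1) (j + 1) (by omega) ?_ ?_ ?_
    · have : j + 1 - (i + 1) = j - i := by omega
      rwa [this] at h1
    · intro t ht1 ht2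
      obtain ⟨t, rfl⟩ : ∃ s, t = s + 1 := ⟨t - 1, by omega⟩
      rw [tb2]; exact hz t (by omega) (by omega)
    · right
      rcases Nat.eq_zero_or_pos i with hi | hi
      · subst hi
        simp [Nat.testBit_zero]
      · obtain ⟨i, rfl⟩ : ∃ s, i = s + 1 := ⟨i - 1, by omega⟩
        simp only [Nat.add_sub_cancel]
        rw [tb2]
        rcases hl with hl | hl
        · omega
        · simpa using hl
    · rw [tb2]; exact hr
  · intro h i j hij hz hl hr
    have hi : i ≠ 0 := by
      rintro rfl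
      have := hz 0 (le_refl _) hij
      simp [Nat.testBit_zero] at this
    obtain ⟨i, rfl⟩ : ∃ s, i = s + 1 := ⟨i - 1, by omega⟩
    obtain ⟨j, rfl⟩ : ∃ s, j = s + 1 := ⟨j - 1, by omega⟩
    have h1 := h i j (by omega) ?_ ?_ ?_
    · have : j + 1 - (i + 1) = j - i := by omega
      rwa [this]
    · intro t ht1 ht2
      have := hz (t + 1) (by omega) (by omega)
      rwa [tb2] at this
    · rcases Nat.eq_zero_or_pos i with hi0 | hi0
      · left; exact hi0
      · right
        obtain ⟨i, rfl⟩ : ∃ s, i = s + 1 := ⟨i - 1, by omega⟩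
        rcases hl with hl | hl
        · omega
        · simp only [Nat.add_sub_cancel] at hl ⊢
          rwa [tb2] at hl
    · rwa [tb2] at hr

lemma tb4_zero (m : ℕ) : (4 * m).testBit 0 = false := by
  rw [Nat.testBit_zero]; simp; omega

lemma tb4_one (m : ℕ) : (4 * m).testBit 1 = false := by
  rw [Nat.testBit_succ, Nat.testBit_zero]; simp; omega

lemma good_four (m : ℕ) : Good (4 * m) ↔ Good m := by
  constructor
  · intro h i j hij hz hl hr
    rcases Nat.eq_zero_or_pos i with hi | hi
    · subst hi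
      have h1 := h 0 (j + 2) (by omega) ?_ (Or.inl rfl) (by rw [tb4]; exact hr)
      · have h2 : Even (j + 2) := by simpa using h1
        have h3 : Even j := by
          rcases h2 with ⟨c, hc⟩
          exact ⟨c - 1, by omega⟩
        simpa using h3
      · intro t _ ht2
        rcases t with _ | _ | t
        · exact tb4_zero m
        · exact tb4_one m
        · rw [tb4]; exact hz t (by omega) (by omega)
    · have h1 := h (i + 2) (j + 2) (by omega) ?_ ?_ (by rw [tb4]; exact hr)
      · have : j + 2 - (i + 2) = j - i := by omega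
        rwa [this] at h1
      · intro t ht1 ht2
        obtain ⟨t, rfl⟩ : ∃ s, t = s + 2 := ⟨t - 2, by omega⟩
        rw [tb4]; exact hz t (by omega) (by omega)
      · right
        obtain ⟨i, rfl⟩ : ∃ s, i = s + 1 := ⟨i - 1, by omega⟩
        have : i + 1 + 2 - 1 = i + 2 := by omega
        rw [this, tb4]
        rcases hl with hl | hl
        · omega
        · simpa using hl
  · intro h i j hij hz hl hr
    have hj0 : j ≠ 0 := by omega
    have hj1 : j ≠ 1 := by
      rintro rfl
      rw [tb4_one] at hr; exact absurd hr (by simp)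
    obtain ⟨j, rfl⟩ : ∃ s, j = s + 2 := ⟨j - 2, by omega⟩
    rw [tb4] at hr
    rcases Nat.eq_zero_or_pos i with hi | hi
    · subst hi
      rcases Nat.eq_zero_or_pos j with hj | hj
      · subst hj; exact ⟨1, rfl⟩
      · have h1 := h 0 j hj ?_ (Or.inl rfl) hr
        · have h2 : Even j := by simpa using h1
          rcases h2 with ⟨c, hc⟩
          exact ⟨c + 1, by omega⟩
        · intro t _ ht2
          have := hz (t + 2) (by omega) (by omega)
          rwa [tb4] at this
    · have hl' : (4 * m).testBit (i - 1) = true := by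
        rcases hl with hl | hl
        · omega
        · exact hl
      have hi1 : i - 1 ≠ 0 := by
        intro h0; rw [h0, tb4_zero] at hl'; exact absurd hl' (by simp)
      have hi2 : i - 1 ≠ 1 := by
        intro h0; rw [h0, tb4_one] at hl'; exact absurd hl' (by simp)
      obtain ⟨i, rfl⟩ : ∃ s, i = s + 3 := ⟨i - 3, by omega⟩
      have h1 := h (i + 1) j (by omega) ?_ ?_ hr
      · have : j + 2 - (i + 3) = j - (i + 1) := by omega
        rwa [this]
      · intro t ht1 ht2
        have := hz (t + 2) (by omega) (by omega)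
        rwa [tb4] at this
      · right
        have h3 : i + 3 - 1 = i + 2 := by omega
        rw [h3, tb4] at hl'
        simpa using hl'

lemma not_good_two (m : ℕ) : ¬ Good (4 * m + 2) := by
  intro h
  have h1 := h 0 1 (by omega) ?_ (Or.inl rfl) ?_
  · simp at h1
  · intro t _ ht
    obtain rfl : t = 0 := by omega
    rw [Nat.testBit_zero]; simp; omega
  · rw [Nat.testBit_succ, Nat.testBit_zero]; simp; omega

lemma good_zero : Good 0 := by
  intro i j _ _ _ h; simp at h

lemma not_good_gap (t m : ℕ) (h1 : 5 * 2 ^ t ≤ m) (h2 : m < 6 * 2 ^ t) : ¬ Good m := by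
  intro h
  have hp : 0 < 2 ^ t := by positivity
  have e5 : m / 2 ^ t = 5 := by
    apply Nat.div_eq_of_lt_le <;> omega
  have e2 : m / 2 ^ (t + 1) = 2 := by
    rw [pow_succ, ← Nat.div_div_eq_div_mul, e5]
  have e1 : m / 2 ^ (t + 2) = 1 := by
    rw [show t + 2 = (t + 1) + 1 from rfl, pow_succ, ← Nat.div_div_eq_div_mul, e2]
  have h3 := h (t + 1) (t + 2) (by omega) ?_ ?_ ?_
  · have : t + 2 - (t + 1) = 1 := by omega
    rw [this] at h3; simp at h3
  · intro s hs1 hs2
    obtain rfl : s = t + 1 := by omega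
    rw [Nat.testBit_eq_decide_div_mod_eq, e2]; simp
  · right
    simp only [Nat.add_sub_cancel]
    rw [Nat.testBit_eq_decide_div_mod_eq, e5]; simp
  · rw [Nat.testBit_eq_decide_div_mod_eq, e1]; simp


/-! ### Counting -/

open Classical in
noncomputable def G (x : ℕ) : ℕ := ∑ m ∈ Finset.range x, if Good m then 1 else 0

open Classical in
lemma G_succ (x : ℕ) : G (x + 1) = G x + if Good x then 1 else 0 := by
  unfold G; rw [Finset.sum_range_succ]

lemma G_zero : G 0 = 0 := by simp [G]

lemma G_four (x : ℕ) : G (4 * x) = G (2 * x) + G x := by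
  classical
  induction x with
  | zero => simp [G_zero]
  | succ x ih =>
    have e1 : 4 * (x + 1) = 4 * x + 1 + 1 + 1 + 1 := by ring
    have e2 : 2 * (x + 1) = 2 * x + 1 + 1 := by ring
    rw [e1, e2, G_succ, G_succ, G_succ, G_succ, G_succ (2 * x + 1), G_succ (2 * x), G_succ x, ih]
    have h0 : Good (4 * x) ↔ Good x := good_four x
    have h1 : Good (4 * x + 1) ↔ Good (2 * x) := by
      have := good_odd (2 * x)
      rwa [show 2 * (2 * x) + 1 = 4 * x + 1 by ring] at this
    have h2 : ¬ Good (4 * x + 1 + 1) := not_good_two x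
    have h3 : Good (4 * x + 1 + 1 + 1) ↔ Good (2 * x + 1) := by
      have := good_odd (2 * x + 1)
      rwa [show 2 * (2 * x + 1) + 1 = 4 * x + 1 + 1 + 1 by ring] at this
    simp only [h0, h1, h2, h3, if_false]
    omega

lemma good_one : Good 1 := by
  have := (good_odd 0).mpr good_zero
  simpa using this
lemma not_good_two' : ¬ Good 2 := not_good_two 0
lemma good_three : Good 3 := (good_odd 1).mpr good_one
lemma good_four' : Good 4 := (good_four 1).mpr good_one
lemma not_good_five : ¬ Good 5 := fun h => not_good_two' ((good_odd 2).mp h)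
lemma not_good_six : ¬ Good 6 := not_good_two 1
lemma good_seven : Good 7 := (good_odd 3).mpr good_three
lemma not_good_eight : ¬ Good 8 := fun h => not_good_two' ((good_four 2).mp h)
lemma good_nine : Good 9 := (good_odd 4).mpr good_four'

lemma G_five : G 5 = 4 := by
  classical
  simp only [G, Finset.sum_range_succ, Finset.sum_range_zero, good_zero, good_one, not_good_two',
    good_three, good_four', if_true, if_false]

lemma G_ten : G 10 = 6 := by
  classical
  simp only [G, Finset.sum_range_succ, Finset.sum_range_zero, good_zero, good_one, not_good_two',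
    good_three, good_four', not_good_five, not_good_six, good_seven, not_good_eight, good_nine,
    if_true, if_false]

lemma G_val (t : ℕ) : G (5 * 2 ^ t) = 2 * Nat.fib (t + 3) := by
  induction t using Nat.twoStepInduction with
  | zero => simp [G_five]; decide
  | one => simp [G_ten]; decide
  | more t ih1 ih2 =>
    have e1 : 5 * 2 ^ (t + 2) = 4 * (5 * 2 ^ t) := by ring
    have e2 : 2 * (5 * 2 ^ t) = 5 * 2 ^ (t + 1) := by ring
    rw [e1, G_four, e2, ih2, ih1]
    have : Nat.fib (t + 2 + 3) = Nat.fib (t + 3) + Nat.fib (t + 1 + 3) := by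
      rw [show t + 2 + 3 = (t + 3) + 2 by ring, Nat.fib_add_two]
    omega

abbrev Z (m : ℕ) : Prop := baumSweet m = 0

lemma count_add_G (x : ℕ) : Nat.count Z x + G x = x := by
  classical
  induction x with
  | zero => simp [G_zero]
  | succ x ih =>
    rw [Nat.count_succ, G_succ]
    by_cases h : Good x
    · have h' : ¬ Z x := fun h' => (baumSweet_eq_zero_iff x).mp h' h
      rw [if_neg h', if_pos h]; omega
    · have h' : Z x := (baumSweet_eq_zero_iff x).mpr h
      rw [if_pos h', if_neg h]; omega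

/-- The index of the first zero of the long run. -/
noncomputable def idx (t : ℕ) : ℕ := Nat.count Z (5 * 2 ^ t)

lemma idx_add (t : ℕ) : idx t + 2 * Nat.fib (t + 3) = 5 * 2 ^ t := by
  have := count_add_G (5 * 2 ^ t)
  rwa [G_val] at this

lemma Z_gap (t i : ℕ) (hi : i < 2 ^ t) : Z (5 * 2 ^ t + i) :=
  (baumSweet_eq_zero_iff _).mpr (not_good_gap t _ (by omega) (by omega))

lemma count_gap (t i : ℕ) (hi : i ≤ 2 ^ t) : Nat.count Z (5 * 2 ^ t + i) = idx t + i := by
  induction i with
  | zero => rfl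
  | succ i ih =>
    rw [← add_assoc, Nat.count_succ, ih (by omega), if_pos (Z_gap t i (by omega))]
    omega

lemma zeroPos_gap (t i : ℕ) (hi : i < 2 ^ t) : zeroPos (idx t + i) = 5 * 2 ^ t + i := by
  rw [← count_gap t i hi.le]
  exact Nat.nth_count (Z_gap t i hi)

lemma good_pred (t : ℕ) : Good (5 * 2 ^ t - 1) := by
  induction t with
  | zero => exact good_four'
  | succ t ih =>
    have hp : 0 < 2 ^ t := by positivity
    have : 5 * 2 ^ (t + 1) - 1 = 2 * (5 * 2 ^ t - 1) + 1 := by
      rw [pow_succ]; omega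
    rw [this]; exact (good_odd _).mpr ih

lemma infinite_Z : {m | Z m}.Infinite := by
  apply Set.infinite_of_injective_forall_mem (f := fun m : ℕ => 4 * m + 2)
  · intro a b h; simp at h; exact h
  · intro m; exact (baumSweet_eq_zero_iff _).mpr (not_good_two m)

lemma zeroPos_strictMono : StrictMono zeroPos := Nat.nth_strictMono infinite_Z

lemma zeroPos_mem (n : ℕ) : Z (zeroPos n) := Nat.nth_mem_of_infinite infinite_Z n

lemma zeroPos_step (n : ℕ) : zeroPos (n + 1) ≤ zeroPos n + 4 := by
  obtain ⟨z, hz1, hz2, hz⟩ : ∃ z, zeroPos n < z ∧ z ≤ zeroPos n + 4 ∧ Z z := by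
    obtain ⟨q, hq⟩ : ∃ q, q = (zeroPos n + 2) / 4 := ⟨_, rfl⟩
    refine ⟨4 * q + 2, by omega, by omega, (baumSweet_eq_zero_iff _).mpr (not_good_two q)⟩
  have h1 : zeroPos (Nat.count Z z) = z := Nat.nth_count hz
  have h2 : n < Nat.count Z z := by
    rw [← zeroPos_strictMono.lt_iff_lt, h1]; exact hz1
  have h3 : zeroPos (n + 1) ≤ zeroPos (Nat.count Z z) := zeroPos_strictMono.monotone h2
  omega

/-- first differences of `zeroPos` -/
noncomputable def d (n : ℕ) : ℤ := (zeroPos (n + 1) : ℤ) - zeroPos n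

lemma d_abs (n : ℕ) : |d n| ≤ 4 := by
  have h1 := zeroPos_step n
  have h2 : zeroPos n < zeroPos (n + 1) := zeroPos_strictMono (Nat.lt_succ_self n)
  unfold d
  rw [abs_le]; constructor <;> omega

lemma idx_pos (t : ℕ) : 0 < idx t := by
  have h0 : Nat.count Z (2 + 1) ≤ idx t := by
    apply Nat.count_monotone
    have : 0 < 2 ^ t := by positivity
    omega
  have h2 : Z 2 := (baumSweet_eq_zero_iff _).mpr not_good_two'
  rw [Nat.count_succ, if_pos h2] at h0
  omega

lemma d_ne (t : ℕ) : d (idx t - 1) ≠ 1 := by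
  have hpos := idx_pos t
  have h0 := zeroPos_gap t 0 (by positivity)
  have h1 : ¬ Z (5 * 2 ^ t - 1) := fun h => (baumSweet_eq_zero_iff _).mp h (good_pred t)
  have hp : 0 < 2 ^ t := by positivity
  have e : idx t - 1 + 1 = idx t := by omega
  intro h
  unfold d at h
  rw [e] at h
  simp only [add_zero] at h0
  rw [h0] at h
  have h2 : zeroPos (idx t - 1) = 5 * 2 ^ t - 1 := by omega
  apply h1
  rw [← h2]; exact zeroPos_mem _

lemma d_eq (t y : ℕ) (h1 : idx t ≤ y) (h2 : y + 1 < idx t + 2 ^ t) : d y = 1 := by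
  obtain ⟨i, rfl⟩ : ∃ i, y = idx t + i := ⟨y - idx t, by omega⟩
  unfold d
  rw [add_assoc, zeroPos_gap t (i + 1) (by omega), zeroPos_gap t i (by omega)]
  push_cast; ring

/-! ### Finite kernel of bounded differences -/

lemma exists_separating (W : Submodule ℤ (ℕ → ℤ)) (hW : W.FG) :
    ∃ N : ℕ, ∀ w ∈ W, (∀ n < N, w n = 0) → w = 0 := by
  obtain ⟨S, hS⟩ := hW
  let φ : (ℕ → ℤ) →ₗ[ℤ] (ℕ → ℚ) :=
    { toFun := fun w n => (w n : ℚ)
      map_add' := by intro a b; funext n; simp
      map_smul' := by intro a b; funext n; simp }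
  let V : Submodule ℚ (ℕ → ℚ) := Submodule.span ℚ (φ '' (S : Set (ℕ → ℤ)))
  have hVfg : V.FG := Submodule.fg_span (S.finite_toSet.image _)
  have hfin : Module.Finite ℚ V := Module.Finite.iff_fg.mpr hVfg
  have hWV : ∀ w ∈ W, φ w ∈ V := by
    intro w hw
    rw [← hS] at hw
    induction hw using Submodule.span_induction with
    | mem x hx => exact Submodule.subset_span ⟨x, hx, rfl⟩
    | zero => rw [map_zero]; exact V.zero_mem
    | add x y _ _ hx hy => rw [map_add]; exact V.add_mem hx hy
    | smul a x _ hx =>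
      rw [map_smul]
      have : (a • φ x) = ((a : ℚ) • φ x) := by
        funext n; simp
      rw [this]; exact V.smul_mem _ hx
  let K : ℕ →o (Submodule ℚ V)ᵒᵈ :=
    { toFun := fun N => OrderDual.toDual
        { carrier := {v : V | ∀ n < N, (v : ℕ → ℚ) n = 0}
          add_mem' := by
            intro a b ha hb n hn
            have h1 := ha n hn
            have h2 := hb n hn
            simp [h1, h2]
          zero_mem' := by intro n hn; simp
          smul_mem' := by
            intro c a ha n hn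
            have h1 := ha n hn
            simp [h1] }
      monotone' := by
        intro a b hab v hv n hn
        exact hv n (lt_of_lt_of_le hn hab) }
  obtain ⟨N, hN⟩ := IsArtinian.monotone_stabilizes K
  refine ⟨N, ?_⟩
  intro w hw hz
  have hmem : (⟨φ w, hWV w hw⟩ : V) ∈ (OrderDual.ofDual (K N) : Submodule ℚ V) := by
    intro n hn
    change ((w n : ℤ) : ℚ) = 0
    rw [hz n hn]; simp
  funext n
  rcases lt_or_ge n N with hn | hn
  · exact hz n hn
  · have h2 := hN (n + 1) (by omega)
    rw [h2] at hmem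
    have h3 := hmem n (Nat.lt_succ_self n)
    change ((w n : ℤ) : ℚ) = 0 at h3
    exact_mod_cast h3

lemma finite_bounded (W : Submodule ℤ (ℕ → ℤ)) (hW : W.FG) (B : ℤ) :
    {w | w ∈ W ∧ ∀ n, |w n| ≤ B}.Finite := by
  obtain ⟨N, hN⟩ := exists_separating W hW
  have hinj : Set.InjOn (fun (w : ℕ → ℤ) (i : Fin N) => w i) {w | w ∈ W ∧ ∀ n, |w n| ≤ B} := by
    intro a ha b hb hab
    have : a - b = 0 := by
      apply hN _ (W.sub_mem ha.1 hb.1)
      intro n hn
      have := congrFun hab ⟨n, hn⟩
      simp only at this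
      simp [this]
    exact sub_eq_zero.mp this
  apply Set.Finite.of_finite_image _ hinj
  apply Set.Finite.subset (Set.finite_Icc (fun _ : Fin N => -B) (fun _ => B))
  rintro _ ⟨w, hw, rfl⟩
  constructor
  · intro i; exact (abs_le.mp (hw.2 i)).1
  · intro i; exact (abs_le.mp (hw.2 i)).2

lemma kKernel_diff_finite (k : ℕ) (a : ℕ → ℤ) (ha : IsKRegular k a) (B : ℤ)
    (hB : ∀ n, |a (n + 1) - a n| ≤ B) : (kKernel k (fun n => a (n + 1) - a n)).Finite := by
  let σ : (ℕ → ℤ) →ₗ[ℤ] (ℕ → ℤ) := LinearMap.funLeft ℤ ℤ (fun n => n + 1)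
  let M := Submodule.span ℤ (kKernel k a)
  have hW : (M ⊔ M.map σ).FG := Submodule.FG.sup ha (Submodule.FG.map σ ha)
  apply Set.Finite.subset (finite_bounded _ hW B)
  rintro _ ⟨e, r, hr, rfl⟩
  refine ⟨?_, fun n => hB _⟩
  have h1 : (fun n => a (k ^ e * n + r)) ∈ M := Submodule.subset_span ⟨e, r, hr, rfl⟩
  have h2 : (fun n => a (k ^ e * n + r + 1)) ∈ M ⊔ M.map σ := by
    rcases Nat.lt_or_ge (r + 1) (k ^ e) with h | h
    · apply Submodule.mem_sup_left
      exact Submodule.subset_span ⟨e, r + 1, h, rfl⟩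
    · apply Submodule.mem_sup_right
      refine ⟨fun n => a (k ^ e * n + 0), Submodule.subset_span ⟨e, 0, by omega, rfl⟩, ?_⟩
      funext n
      change a (k ^ e * (n + 1) + 0) = a (k ^ e * n + r + 1)
      congr 1
      have : r + 1 = k ^ e := by omega
      rw [add_assoc, this]; ring
  have h3 := Submodule.sub_mem _ h2 (Submodule.mem_sup_left (T := M.map σ) h1)
  exact h3

/-! ### Pigeonhole -/

lemma pigeon (k : ℕ) (hk : 2 ≤ k) (f : ℕ → ℤ) (B : ℤ) (hB : ∀ n, |f n| ≤ B)
    (hfin : (kKernel k f).Finite) :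
    ∃ C : ℕ, ∀ e : ℕ, ∀ x : Fin (C + 1) → ℕ,
      (∀ i, f (x i) ≠ 1 ∧ ∀ y, x i < y → y ≤ x i + k ^ e → f y = 1) →
      ∃ i j, i ≠ j ∧ x i % k ^ e = x j % k ^ e := by
  classical
  let _ : Fintype (kKernel k f) := hfin.fintype
  let box : Set (kKernel k f → ℤ) := Set.Icc (fun _ => -B) (fun _ => B)
  let _ : Fintype box := (Set.finite_Icc _ _).fintype
  refine ⟨Fintype.card box, ?_⟩
  intro e x hx
  have hbox : ∀ q : ℕ, (fun u : kKernel k f => (u : ℕ → ℤ) q) ∈ box := by
    intro q
    constructor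
    · rintro ⟨_, e', r, hr, rfl⟩; exact (abs_le.mp (hB _)).1
    · rintro ⟨_, e', r, hr, rfl⟩; exact (abs_le.mp (hB _)).2
  let Φ : Fin (Fintype.card box + 1) → box := fun i => ⟨_, hbox (x i / k ^ e)⟩
  obtain ⟨i, j, hij, hΦ⟩ := Fintype.exists_ne_map_eq_of_card_lt Φ (by simp)
  refine ⟨i, j, hij, ?_⟩
  have hke : 0 < k ^ e := by positivity
  have hΦ' : ∀ r < k ^ e, f (k ^ e * (x i / k ^ e) + r) = f (k ^ e * (x j / k ^ e) + r) := by
    intro r hr
    have := congrArg Subtype.val hΦ
    exact congrFun this ⟨_, e, r, hr, rfl⟩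
  have hdi := Nat.div_add_mod (x i) (k ^ e)
  have hdj := Nat.div_add_mod (x j) (k ^ e)
  have hmi := Nat.mod_lt (x i) hke
  have hmj := Nat.mod_lt (x j) hke
  have hni := Nat.zero_le (x i % k ^ e)
  have hnj := Nat.zero_le (x j % k ^ e)
  by_contra hne
  rcases Nat.lt_or_gt_of_ne hne with h | h
  · have h1 := hΦ' _ hmj
    rw [hdj] at h1
    have h2 := (hx i).2 (k ^ e * (x i / k ^ e) + x j % k ^ e) (by linarith) (by linarith)
    exact (hx j).1 (by rw [← h1, h2])
  · have h1 := hΦ' _ hmi
    rw [hdi] at h1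
    have h2 := (hx j).2 (k ^ e * (x j / k ^ e) + x i % k ^ e) (by linarith) (by linarith)
    exact (hx i).1 (by rw [h1, h2])

/-! ### Residues -/

lemma fib_periodic (M : ℕ) (hM : 0 < M) :
    ∃ T, 0 < T ∧ ∀ n, Nat.fib (n + T) ≡ Nat.fib n [MOD M] := by
  have : NeZero M := ⟨by omega⟩
  let π : Equiv.Perm (ZMod M × ZMod M) :=
    { toFun := fun p => (p.2, p.1 + p.2)
      invFun := fun p => (p.2 - p.1, p.1)
      left_inv := by rintro ⟨a, b⟩; simp
      right_inv := by rintro ⟨a, b⟩; simp }
  have hπ : ∀ n : ℕ, (π ^ n) (0, 1) = ((Nat.fib n : ZMod M), (Nat.fib (n + 1) : ZMod M)) := by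
    intro n
    induction n with
    | zero => simp
    | succ n ih =>
      rw [pow_succ', Equiv.Perm.mul_apply, ih]
      change ((Nat.fib (n + 1) : ZMod M), (Nat.fib n : ZMod M) + (Nat.fib (n + 1) : ZMod M)) = _
      rw [show n + 1 + 1 = n + 2 from rfl, Nat.fib_add_two]; push_cast; rfl
  refine ⟨orderOf π, orderOf_pos π, ?_⟩
  intro n
  have h1 := hπ (n + orderOf π)
  rw [pow_add, pow_orderOf_eq_one, mul_one, hπ n] at h1
  have h2 := congrArg Prod.fst h1
  simp only at h2
  exact ((ZMod.natCast_eq_natCast_iff _ _ _).mp h2).symm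

lemma iterate_period {M T : ℕ} {g : ℕ → ℕ} (h : ∀ n, g (n + T) ≡ g n [MOD M]) (n j : ℕ) :
    g (n + j * T) ≡ g n [MOD M] := by
  induction j with
  | zero => simp; rfl
  | succ j ih =>
    have : n + (j + 1) * T = n + j * T + T := by ring
    rw [this]; exact (h _).trans ih

lemma fib_lt_pow (t : ℕ) : 2 * Nat.fib (t + 3) ≤ 4 * 2 ^ t := by
  induction t using Nat.twoStepInduction with
  | zero => simp; decide
  | one => simp; decide
  | more t ih1 ih2 =>
    have : Nat.fib (t + 2 + 3) = Nat.fib (t + 3) + Nat.fib (t + 1 + 3) := by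
      rw [show t + 2 + 3 = (t + 3) + 2 by ring, Nat.fib_add_two]
    rw [this]
    have h1 : 2 ^ (t + 2) = 4 * 2 ^ t := by ring
    have h2 : 2 ^ (t + 1) = 2 * 2 ^ t := by ring
    omega

lemma idx_strictMono : StrictMono idx := by
  apply strictMono_nat_of_lt_succ
  intro t
  have h1 := idx_add t
  have h2 := idx_add (t + 1)
  have h3 : Nat.fib (t + 1 + 3) = Nat.fib (t + 2) + Nat.fib (t + 3) := by
    rw [show t + 1 + 3 = (t + 2) + 2 by ring, Nat.fib_add_two]
  have h4 : Nat.fib (t + 2) ≤ Nat.fib (t + 3) := Nat.fib_mono (by omega)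
  have h5 := fib_lt_pow t
  have h6 : 2 ^ (t + 1) = 2 * 2 ^ t := by ring
  have h7 : 0 < 2 ^ t := by positivity
  omega

lemma residues (k : ℕ) (hk : 2 ≤ k) (C : ℕ) :
    ∃ e : ℕ, ∃ τ : Fin (C + 1) → ℕ, (∀ i, k ^ e + 1 ≤ 2 ^ τ i) ∧
      ∀ i j, (idx (τ i) - 1) % k ^ e = (idx (τ j) - 1) % k ^ e → i = j := by
  -- choose `e` large
  obtain ⟨e, he⟩ : ∃ e, 5 * 2 ^ (C + 1) < 2 ^ e := ⟨C + 4, by
    have : 2 ^ (C + 4) = 8 * 2 ^ (C + 1) := by ring
    have h : 0 < 2 ^ (C + 1) := by positivity
    omega⟩
  have hkp : 2 ^ e ≤ k ^ e := Nat.pow_le_pow_left hk e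
  have hke : 0 < k ^ e := by positivity
  obtain ⟨T, hT0, hT⟩ := fib_periodic (k ^ e) hke
  have hsmall : ∀ i : Fin (C + 1), 5 * 2 ^ (i : ℕ) < 2 ^ e := by
    intro i
    refine lt_of_le_of_lt ?_ he
    have : 2 ^ (i : ℕ) ≤ 2 ^ (C + 1) := Nat.pow_le_pow_right (by norm_num) (by omega)
    omega
  have hsub : ∀ a b : ℕ, (idx a - 1) % k ^ e = (idx b - 1) % k ^ e → idx a ≡ idx b [MOD k ^ e] := by
    intro a b h
    have h1 : idx a - 1 ≡ idx b - 1 [MOD k ^ e] := h
    have h2 := Nat.ModEq.add_right 1 h1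
    have ha := idx_pos a
    have hb := idx_pos b
    rwa [Nat.sub_add_cancel ha, Nat.sub_add_cancel hb] at h2
  rcases Nat.even_or_odd k with hev | hodd
  · -- even case, work modulo `2 ^ e`
    have h2k : 2 ^ e ∣ k ^ e := pow_dvd_pow_of_dvd hev.two_dvd e
    refine ⟨e, fun i => i + (k ^ e + 1) * T, ?_, ?_⟩
    · intro i
      have h1 : k ^ e + 1 < 2 ^ (k ^ e + 1) := Nat.lt_two_pow_self
      have h2 : 2 ^ (k ^ e + 1) ≤ 2 ^ ((i : ℕ) + (k ^ e + 1) * T) := by
        apply Nat.pow_le_pow_right (by norm_num)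
        nlinarith
      exact le_trans h1.le h2
    · intro i j hij
      have h1 := hsub _ _ hij
      have h2 : idx (i + (k ^ e + 1) * T) ≡ idx (j + (k ^ e + 1) * T) [MOD 2 ^ e] :=
        Nat.ModEq.of_dvd h2k h1
      have hzero : ∀ i : ℕ, 5 * 2 ^ (i + (k ^ e + 1) * T) ≡ 0 [MOD 2 ^ e] := by
        intro i
        rw [Nat.modEq_zero_iff_dvd]
        apply Dvd.dvd.mul_left
        apply pow_dvd_pow
        have : e < 2 ^ e := Nat.lt_two_pow_self
        nlinarith
      have hf : ∀ i : ℕ, 2 * Nat.fib (i + (k ^ e + 1) * T + 3) ≡ 2 * Nat.fib (i + 3) [MOD 2 ^ e] := by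
        intro i
        apply Nat.ModEq.mul_left
        have h3 := iterate_period hT (i + 3) (k ^ e + 1)
        have h4 : i + (k ^ e + 1) * T + 3 = i + 3 + (k ^ e + 1) * T := by ring
        rw [h4]
        exact Nat.ModEq.of_dvd h2k h3
      have h5 : 2 * Nat.fib ((i : ℕ) + 3) ≡ 2 * Nat.fib ((j : ℕ) + 3) [MOD 2 ^ e] := by
        have a1 := idx_add ((i : ℕ) + (k ^ e + 1) * T)
        have a2 := idx_add ((j : ℕ) + (k ^ e + 1) * T)
        have b1 := hzero i
        have b2 := hzero j
        rw [← a1] at b1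
        rw [← a2] at b2
        have c1 : idx (i + (k ^ e + 1) * T) + 2 * Nat.fib (i + (k ^ e + 1) * T + 3) ≡
            idx (i + (k ^ e + 1) * T) + 2 * Nat.fib (j + (k ^ e + 1) * T + 3) [MOD 2 ^ e] :=
          b1.trans (b2.symm.trans (Nat.ModEq.add_right _ h2.symm))
        have c2 := Nat.ModEq.add_left_cancel' _ c1
        exact (hf i).symm.trans (c2.trans (hf j))
      have h6 : 2 * Nat.fib ((i : ℕ) + 3) = 2 * Nat.fib ((j : ℕ) + 3) := by
        apply Nat.ModEq.eq_of_lt_of_lt h5
        · have := fib_lt_pow i; have := hsmall i; omega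
        · have := fib_lt_pow j; have := hsmall j; omega
      have h7 : Nat.fib ((i : ℕ) + 1 + 2) = Nat.fib ((j : ℕ) + 1 + 2) := by
        have e1 : (i : ℕ) + 1 + 2 = i + 3 := by ring
        have e2 : (j : ℕ) + 1 + 2 = j + 3 := by ring
        rw [e1, e2]; omega
      have h8 := Nat.fib_add_two_strictMono.injective h7
      exact Fin.ext (by omega)
  · -- odd case
    have hcop : Nat.Coprime 2 (k ^ e) := by
      apply Nat.Coprime.pow_right
      exact (Nat.coprime_two_left).mpr hodd
    set T' := T * Nat.totient (k ^ e) with hT'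
    have htot : 0 < Nat.totient (k ^ e) := Nat.totient_pos.mpr hke
    have hT'0 : 0 < T' := Nat.mul_pos hT0 htot
    refine ⟨e, fun i => i + (k ^ e + 1) * T', ?_, ?_⟩
    · intro i
      have h1 : k ^ e + 1 < 2 ^ (k ^ e + 1) := Nat.lt_two_pow_self
      have h2 : 2 ^ (k ^ e + 1) ≤ 2 ^ ((i : ℕ) + (k ^ e + 1) * T') := by
        apply Nat.pow_le_pow_right (by norm_num)
        nlinarith
      exact le_trans h1.le h2
    · intro i j hij
      have h1 := hsub _ _ hij
      have hpow : ∀ i : ℕ, 5 * 2 ^ (i + (k ^ e + 1) * T') ≡ 5 * 2 ^ i [MOD k ^ e] := by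
        intro i
        apply Nat.ModEq.mul_left
        have h2 : 2 ^ Nat.totient (k ^ e) ≡ 1 [MOD k ^ e] := Nat.ModEq.pow_totient hcop
        have h3 := Nat.ModEq.pow ((k ^ e + 1) * T) h2
        rw [← pow_mul, one_pow] at h3
        have h4 : (k ^ e + 1) * T' = Nat.totient (k ^ e) * ((k ^ e + 1) * T) := by
          rw [hT']; ring
        rw [pow_add, h4]
        simpa using Nat.ModEq.mul_left (2 ^ i) h3
      have hf : ∀ i : ℕ, 2 * Nat.fib (i + (k ^ e + 1) * T' + 3) ≡ 2 * Nat.fib (i + 3) [MOD k ^ e] := by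
        intro i
        apply Nat.ModEq.mul_left
        have h3 := iterate_period hT (i + 3) ((k ^ e + 1) * Nat.totient (k ^ e))
        have h4 : i + (k ^ e + 1) * T' + 3 = i + 3 + (k ^ e + 1) * Nat.totient (k ^ e) * T := by
          rw [hT']; ring
        rw [h4]; exact h3
      have hidx : ∀ i : ℕ, idx (i + (k ^ e + 1) * T') ≡ idx i [MOD k ^ e] := by
        intro i
        have a1 := idx_add (i + (k ^ e + 1) * T')
        have a2 := idx_add i
        have b := hpow i
        rw [← a1, ← a2] at b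
        exact Nat.ModEq.add_right_cancel (hf i) b
      have h2 : idx (i : ℕ) ≡ idx (j : ℕ) [MOD k ^ e] :=
        (hidx i).symm.trans (h1.trans (hidx j))
      have h3 : idx (i : ℕ) = idx (j : ℕ) := by
        apply Nat.ModEq.eq_of_lt_of_lt h2
        · have := idx_add i; have := hsmall i; omega
        · have := idx_add j; have := hsmall j; omega
      exact Fin.ext (idx_strictMono.injective h3)

/-- **Main theorem.** The increasing enumeration of the zeros of the Baum-Sweet sequence is not
`k`-regular for any `k ≥ 2`. -/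
theorem result : ∀ k : ℕ, 2 ≤ k → ¬ IsKRegular k (fun n => (zeroPos n : ℤ)) := by
  intro k hk hreg
  have hfin : (kKernel k d).Finite :=
    kKernel_diff_finite k (fun n => (zeroPos n : ℤ)) hreg 4 (fun n => by
      have := d_abs n
      unfold d at this
      exact_mod_cast this)
  obtain ⟨C, hC⟩ := pigeon k hk d 4 d_abs hfin
  obtain ⟨e, τ, hτ, hinj⟩ := residues k hk C
  obtain ⟨i, j, hij, hmod⟩ := hC e (fun i => idx (τ i) - 1) (by
    intro i
    have hpos := idx_pos (τ i)
    refine ⟨d_ne _, ?_⟩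
    intro y h1 h2
    have h3 := hτ i
    apply d_eq (τ i) y (by omega) (by omega))
  exact hij (hinj i j hmod)

end Pool.Agent.Results.MP_4e5b66_nt.NotRegular
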